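import Pool.Agent.Helper94.LC.Na

/-! # Block C of LT, LCB part 2: norm forms -/

set_option autoImplicit false
set_option linter.unusedSectionVars false
set_option linter.unusedVariables false

namespace Pool.Agent.Helper94.LC

open Polynomial Pool.Agent.Helper14.LC

section step

variable {τ : Type} [DecidableEq τ] {d : ℕ}

theorem pow_totalDegree (M : Matrix (Fin d) (Fin d) (MvPolynomial τ ℤ)) (e : ℕ)
    (hM : ∀ i j, (M i j).totalDegree ≤ e) (k : ℕ) (i j : Fin d) :
    ((M ^ k) i j).totalDegree ≤ k * e := by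
  induction k generalizing i j with
  | zero =>
    rw [pow_zero, Matrix.one_apply]
    split_ifs
    · rw [MvPolynomial.totalDegree_one]
      exact Nat.zero_le _
    · rw [MvPolynomial.totalDegree_zero]
      exact Nat.zero_le _
  | succ k ih =>
    rw [pow_succ, Matrix.mul_apply]
    apply MvPolynomial.totalDegree_finsetSum_le
    intro l _
    refine (MvPolynomial.totalDegree_mul _ _).trans ?_
    have h1 := ih i l
    have h2 := hM l j
    rw [add_mul, one_mul]
    exact Nat.add_le_add h1 h2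

theorem det_totalDegree (M : Matrix (Fin d) (Fin d) (MvPolynomial τ ℤ)) (e : ℕ)
    (hM : ∀ i j, (M i j).totalDegree ≤ e) : M.det.totalDegree ≤ d * e := by
  rw [Matrix.det_apply]
  apply MvPolynomial.totalDegree_finsetSum_le
  intro s _
  have h1 : (∏ i, M (s i) i).totalDegree ≤ d * e := by
    refine (MvPolynomial.totalDegree_finsetProd _ _).trans ?_
    refine (Finset.sum_le_sum fun i _ => hM (s i) i).trans ?_
    rw [Finset.sum_const, Finset.card_univ, Fintype.card_fin, smul_eq_mul]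
  rcases Int.units_eq_one_or (Equiv.Perm.sign s) with hs | hs
  · rw [hs, one_smul]
    exact h1
  · rw [hs, Units.neg_smul, one_smul, MvPolynomial.totalDegree_neg]
    exact h1

theorem Hm_totalDegree (a : ℤ) (ν : Fin d → MvPolynomial τ ℤ) (e : ℕ)
    (hν : ∀ j, (ν j).totalDegree ≤ e) (D : ℕ) (p : (MvPolynomial τ ℤ)[X])
    (hp : ∀ k, (p.coeff k).totalDegree ≤ D) (i j : Fin d) :
    (Hm (MvPolynomial.C a) ν D p i j).totalDegree ≤ D + D * e := by
  rw [Hm, Matrix.sum_apply]
  apply MvPolynomial.totalDegree_finsetSum_le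
  intro k hk
  rw [Matrix.smul_apply, smul_eq_mul]
  refine (MvPolynomial.totalDegree_mul _ _).trans ?_
  have h1 : ((MvPolynomial.C a : MvPolynomial τ ℤ) ^ (D - k) * p.coeff k).totalDegree ≤ D := by
    refine (MvPolynomial.totalDegree_mul _ _).trans ?_
    rw [← map_pow, MvPolynomial.totalDegree_C, zero_add]
    exact hp k
  have h2 : ((Mc (MvPolynomial.C a) ν ^ k) i j).totalDegree ≤ k * e := by
    apply pow_totalDegree
    intro i j
    rw [Mc, Matrix.of_apply]
    split_ifs
    · rw [MvPolynomial.totalDegree_C]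
      exact Nat.zero_le _
    · rw [MvPolynomial.totalDegree_zero]
      exact Nat.zero_le _
    · rw [MvPolynomial.totalDegree_neg]
      exact hν j
  have h3 : k * e ≤ D * e :=
    Nat.mul_le_mul_right _ (Nat.lt_succ_iff.mp (Finset.mem_range.mp hk))
  omega

theorem isNm_evh (y : τ → ℂ) : IsNm (fun P : MvPolynomial τ ℤ => ‖evh y P‖) where
  nn x := norm_nonneg _
  zero := by simp
  one := by simp
  neg x := by simp
  add x y := by
    rw [map_add]
    exact norm_add_le _ _
  mul x y := by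
    rw [map_mul, norm_mul]

theorem pow_le_exp (c S : ℝ) (hc : 1 ≤ c) (D : ℕ) (hD : (D : ℝ) ≤ S) :
    c ^ D ≤ Real.exp (Real.log c * S) := by
  have h0 : 0 < c := by linarith
  have h1 : c ^ D = Real.exp (Real.log c * D) := by
    rw [mul_comm, Real.exp_nat_mul, Real.exp_log h0]
  rw [h1]
  exact Real.exp_le_exp.mpr (mul_le_mul_of_nonneg_left hD (Real.log_nonneg hc))

/-- elimination of the variable `i` -/
theorem step [Fintype τ] (i : τ) (hd : 0 < d) (a : ℤ) (ha : a ≠ 0) (ν : Fin d → MvPolynomial τ ℤ)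
    (y0 : τ → ℂ)
    (h0 : (a : ℂ) * y0 i ^ d + ∑ j : Fin d, MvPolynomial.aeval y0 (ν j) * y0 i ^ (j : ℕ) = 0)
    (hν : ∀ (y : τ → ℂ) (w : ℂ) (j : Fin d),
      MvPolynomial.aeval (Function.update y i w) (ν j) = MvPolynomial.aeval y (ν j)) :
    ∃ A : ℝ, 1 ≤ A ∧ ∀ S : ℝ, 1 ≤ S → ∀ P : MvPolynomial τ ℤ, (P.totalDegree : ℝ) ≤ S →
      len P ≤ Real.exp S →
        ∃ Q : MvPolynomial τ ℤ, (Q.totalDegree : ℝ) ≤ A * S ∧ len Q ≤ Real.exp (A * S) ∧
          ‖MvPolynomial.aeval y0 Q‖ ≤ ‖MvPolynomial.aeval y0 P‖ * Real.exp (A * S) ∧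
          (∀ y : τ → ℂ, MvPolynomial.aeval y Q = 0 → ∃ w : ℂ,
            (a : ℂ) * w ^ d + ∑ j : Fin d, MvPolynomial.aeval y (ν j) * w ^ (j : ℕ) = 0 ∧
              MvPolynomial.aeval (Function.update y i w) P = 0) ∧
          (∀ y y' : τ → ℂ, (∀ j, MvPolynomial.aeval y (ν j) = MvPolynomial.aeval y' (ν j)) →
            (∀ w : ℂ, MvPolynomial.aeval (Function.update y i w) P =
              MvPolynomial.aeval (Function.update y' i w) P) →
            MvPolynomial.aeval y Q = MvPolynomial.aeval y' Q) := by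
  classical
  -- constants
  obtain ⟨e, he⟩ : ∃ e : ℕ, ∀ j, (ν j).totalDegree ≤ e :=
    ⟨Finset.univ.sup fun j => (ν j).totalDegree,
      fun j => Finset.le_sup (f := fun j => (ν j).totalDegree) (Finset.mem_univ j)⟩
  set c1 : ℝ := 1 + (len (MvPolynomial.C a : MvPolynomial τ ℤ) + ∑ j, len (ν j)) with hc1
  have hc1' : 1 ≤ c1 := by
    have h1 : 0 ≤ len (MvPolynomial.C a : MvPolynomial τ ℤ) := len_nonneg _
    have h2 : 0 ≤ ∑ j, len (ν j) := Finset.sum_nonneg fun j _ => len_nonneg _
    linarith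
  set c2 : ℝ := 1 + (‖evh y0 (MvPolynomial.C a)‖ + ∑ j, ‖evh y0 (ν j)‖) with hc2
  have hc2' : 1 ≤ c2 := by
    have h2 : 0 ≤ ∑ j, ‖evh y0 (ν j)‖ := Finset.sum_nonneg fun j _ => norm_nonneg _
    have h1 := norm_nonneg (evh y0 (MvPolynomial.C a))
    linarith
  set t : ℝ := 1 + ∑ j, ‖y0 j‖ with ht
  have ht' : 1 ≤ t := by
    have h2 : 0 ≤ ∑ j, ‖y0 j‖ := Finset.sum_nonneg fun j _ => norm_nonneg _
    linarith
  have hty : ∀ j, ‖y0 j‖ ≤ t := by
    intro j
    have h2 := Finset.single_le_sum (f := fun j => ‖y0 j‖) (fun j _ => norm_nonneg _)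
      (Finset.mem_univ j)
    linarith
  set v : ℝ := 1 + ∑ j : Fin d, ‖y0 i ^ (j : ℕ)‖ with hv
  have hv' : 1 ≤ v := by
    have h2 : 0 ≤ ∑ j : Fin d, ‖y0 i ^ (j : ℕ)‖ := Finset.sum_nonneg fun j _ => norm_nonneg _
    linarith
  set K1 : ℝ := Real.log c1 + 1 with hK1
  have hK1' : 1 ≤ K1 := by
    have := Real.log_nonneg hc1'
    linarith
  set K2 : ℝ := Real.log c2 + Real.log t + 2 with hK2
  have hK2' : 2 ≤ K2 := by
    have h1 := Real.log_nonneg hc2'
    have h2 := Real.log_nonneg ht'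
    linarith
  have hdr : (1 : ℝ) ≤ d := by exact_mod_cast hd
  have hl1 := Real.log_nonneg hc1'
  have hl2 := Real.log_nonneg hc2'
  have hl3 := Real.log_nonneg ht'
  have hl4 := Real.log_nonneg hv'
  refine ⟨d * (1 + e) + d * K1 + (Real.log c2 + Real.log v + d * K2), ?_, ?_⟩
  · have h1 : (0 : ℝ) ≤ e := Nat.cast_nonneg _
    nlinarith [mul_nonneg (by linarith : (0 : ℝ) ≤ (d : ℝ)) h1]
  intro S hS P hPd hPl
  set A : ℝ := d * (1 + e) + d * K1 + (Real.log c2 + Real.log v + d * K2) with hA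
  set D : ℕ := ⌊S⌋₊ with hD
  have hDS : (D : ℝ) ≤ S := Nat.floor_le (by linarith)
  have hPD : P.totalDegree ≤ D := Nat.le_floor hPd
  have hUW : W D (U i P) := W_mono hPD (U_W i P)
  set Q : MvPolynomial τ ℤ := (Hm (MvPolynomial.C a) ν D (U i P)).det with hQ
  have hev : ∀ y : τ → ℂ, MvPolynomial.aeval y Q =
      (Hm (a : ℂ) (fun j => MvPolynomial.aeval y (ν j)) D ((U i P).map (evh y))).det := by
    intro y
    have h1 := det_Hm_map (evh y) (MvPolynomial.C a) ν D (U i P)
    have h2 : evh y (MvPolynomial.C a) = (a : ℂ) := by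
      rw [evh_apply, MvPolynomial.aeval_C]
      simp
    rw [h2] at h1
    exact h1
  have hnd : ∀ y : τ → ℂ, ((U i P).map (evh y)).natDegree ≤ D :=
    fun y => natDegree_map_le.trans (W_natDegree hUW)
  have hSe : (0 : ℝ) ≤ e := Nat.cast_nonneg _
  refine ⟨Q, ?_, ?_, ?_, ?_, ?_⟩
  · have h1 : Q.totalDegree ≤ d * (D + D * e) := by
      apply det_totalDegree
      exact Hm_totalDegree a ν e he D _ (W_coeff hUW)
    have h2 : (Q.totalDegree : ℝ) ≤ d * (D + D * e) := by exact_mod_cast h1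
    calc (Q.totalDegree : ℝ) ≤ d * (D + D * e) := h2
      _ = d * (1 + e) * D := by ring
      _ ≤ d * (1 + e) * S := mul_le_mul_of_nonneg_left hDS (by positivity)
      _ ≤ A * S := by
        apply mul_le_mul_of_nonneg_right _ (by linarith)
        rw [hA]
        nlinarith
  · have h1 : ∀ j, ∑ k, len (Hm (MvPolynomial.C a) ν D (U i P) j k) ≤ Real.exp (K1 * S) := by
      intro j
      refine (rs_Hm isNm_len _ ν c1 hc1' (by rw [hc1]; linarith) D (U i P) j).trans ?_
      have h2 : pN len (U i P) ≤ Real.exp S := by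
        have h3 := U_len isNm_len 1 le_rfl (fun j => (len_X j).le) i P D hPD
        rw [one_pow, mul_one] at h3
        exact h3.trans hPl
      calc c1 ^ D * pN len (U i P) ≤ Real.exp (Real.log c1 * S) * Real.exp S :=
            mul_le_mul (pow_le_exp c1 S hc1' D hDS) h2 (pN_nonneg isNm_len _) (Real.exp_pos _).le
        _ = Real.exp (K1 * S) := by
            rw [← Real.exp_add, hK1]
            ring_nf
    have h2 : len Q ≤ ∏ j : Fin d, Real.exp (K1 * S) := by
      refine (isNm_len.det_le _).trans ?_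
      exact Finset.prod_le_prod (fun j _ => Finset.sum_nonneg fun k _ => len_nonneg _)
        fun j _ => h1 j
    rw [Finset.prod_const, Finset.card_univ, Fintype.card_fin, ← Real.exp_nat_mul] at h2
    refine h2.trans (Real.exp_le_exp.mpr ?_)
    rw [← mul_assoc]
    apply mul_le_mul_of_nonneg_right _ (by linarith)
    rw [hA]
    nlinarith [mul_nonneg (by linarith : (0 : ℝ) ≤ (d : ℝ)) hSe]
  · rw [hev y0]
    set X0 := Hm (a : ℂ) (fun j => MvPolynomial.aeval y0 (ν j)) D ((U i P).map (evh y0)) with hX0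
    have h1 := isNm_norm.det_small X0 (fun j : Fin d => y0 i ^ (j : ℕ)) ⟨0, hd⟩ (by simp)
    have h2 : X0.mulVec (fun j : Fin d => y0 i ^ (j : ℕ)) =
        ((a : ℂ) ^ D * ((U i P).map (evh y0)).eval (y0 i)) • fun j : Fin d => y0 i ^ (j : ℕ) :=
      Hm_mulVec (a : ℂ) _ (y0 i) h0 D _ (hnd y0)
    rw [U_eval, Function.update_eq_self] at h2
    have hna : ‖(a : ℂ)‖ ≤ c2 := by
      have h3 : evh y0 (MvPolynomial.C a) = (a : ℂ) := by
        rw [evh_apply, MvPolynomial.aeval_C]
        simp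
      have h4 : 0 ≤ ∑ j, ‖evh y0 (ν j)‖ := Finset.sum_nonneg fun j _ => norm_nonneg _
      rw [hc2, h3]
      linarith
    have h3 : ∑ j, ‖(X0.mulVec (fun j : Fin d => y0 i ^ (j : ℕ))) j‖ ≤
        ‖MvPolynomial.aeval y0 P‖ * Real.exp ((Real.log c2 + Real.log v) * S) := by
      rw [h2]
      have h4 : ∀ j : Fin d, ‖(((a : ℂ) ^ D * MvPolynomial.aeval y0 P) •
          fun j : Fin d => y0 i ^ (j : ℕ)) j‖ =
            ‖(a : ℂ)‖ ^ D * ‖MvPolynomial.aeval y0 P‖ * ‖y0 i ^ (j : ℕ)‖ := by
        intro j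
        rw [Pi.smul_apply, smul_eq_mul, norm_mul, norm_mul, norm_pow]
      rw [Finset.sum_congr rfl fun j _ => h4 j, ← Finset.mul_sum]
      have h5 : ‖(a : ℂ)‖ ^ D ≤ Real.exp (Real.log c2 * S) :=
        (pow_le_pow_left₀ (norm_nonneg _) hna D).trans (pow_le_exp c2 S hc2' D hDS)
      have h6 : ∑ j : Fin d, ‖y0 i ^ (j : ℕ)‖ ≤ Real.exp (Real.log v * S) := by
        have h7 : v ≤ Real.exp (Real.log v * S) := by
          calc v = Real.exp (Real.log v) := (Real.exp_log (by linarith)).symm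
            _ ≤ Real.exp (Real.log v * S) := Real.exp_le_exp.mpr (by nlinarith)
        linarith
      calc ‖(a : ℂ)‖ ^ D * ‖MvPolynomial.aeval y0 P‖ * ∑ j : Fin d, ‖y0 i ^ (j : ℕ)‖
          ≤ (Real.exp (Real.log c2 * S) * ‖MvPolynomial.aeval y0 P‖) *
              Real.exp (Real.log v * S) := by
            refine mul_le_mul (mul_le_mul_of_nonneg_right h5 (norm_nonneg _)) h6
              (Finset.sum_nonneg fun j _ => norm_nonneg _) (by positivity)
        _ = ‖MvPolynomial.aeval y0 P‖ *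
              (Real.exp (Real.log c2 * S) * Real.exp (Real.log v * S)) := by ring
        _ = ‖MvPolynomial.aeval y0 P‖ * Real.exp ((Real.log c2 + Real.log v) * S) := by
            rw [← Real.exp_add]
            ring_nf
    have h8 : ∀ k, 1 + ∑ j, ‖X0 k j‖ ≤ Real.exp (K2 * S) := by
      intro k
      have h9 : ∑ j, ‖X0 k j‖ ≤ c2 ^ D * pN (fun z : ℂ => ‖z‖) ((U i P).map (evh y0)) := by
        refine rs_Hm isNm_norm _ _ c2 hc2' ?_ D _ k
        have h3 : evh y0 (MvPolynomial.C a) = (a : ℂ) := by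
          rw [evh_apply, MvPolynomial.aeval_C]
          simp
        rw [hc2, h3]
        have h10 : ∑ j, ‖(MvPolynomial.aeval y0 (ν j) : ℂ)‖ = ∑ j, ‖evh y0 (ν j)‖ := rfl
        linarith
      have h11 : pN (fun z : ℂ => ‖z‖) ((U i P).map (evh y0)) ≤ Real.exp S * t ^ D := by
        have h12 := U_len (isNm_evh y0) t ht' (fun j => by
          rw [evh_apply, MvPolynomial.aeval_X]
          exact hty j) i P D hPD
        have h13 : pN (fun z : ℂ => ‖z‖) ((U i P).map (evh y0)) ≤
            pN (fun P : MvPolynomial τ ℤ => ‖evh y0 P‖) (U i P) := by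
          rw [pN_eq_of_subset isNm_norm _ (U i P).support (support_map_subset _ _), pN]
          refine Finset.sum_le_sum fun k _ => ?_
          rw [coeff_map]
        exact h13.trans (h12.trans (mul_le_mul_of_nonneg_right hPl (by positivity)))
      have h14 : c2 ^ D ≤ Real.exp (Real.log c2 * S) := pow_le_exp c2 S hc2' D hDS
      have h15 : t ^ D ≤ Real.exp (Real.log t * S) := pow_le_exp t S ht' D hDS
      have h16 : ∑ j, ‖X0 k j‖ ≤ Real.exp ((K2 - 1) * S) := by
        calc ∑ j, ‖X0 k j‖ ≤ c2 ^ D * pN (fun z : ℂ => ‖z‖) ((U i P).map (evh y0)) := h9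
          _ ≤ Real.exp (Real.log c2 * S) * (Real.exp S * Real.exp (Real.log t * S)) := by
              refine mul_le_mul h14 (h11.trans ?_) (pN_nonneg isNm_norm _) (Real.exp_pos _).le
              exact mul_le_mul_of_nonneg_left h15 (Real.exp_pos _).le
          _ = Real.exp ((K2 - 1) * S) := by
              rw [← Real.exp_add, ← Real.exp_add, hK2]
              ring_nf
      have h17 : (1 : ℝ) ≤ Real.exp ((K2 - 1) * S) :=
        Real.one_le_exp (mul_nonneg (by linarith) (by linarith))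
      have h18 : (2 : ℝ) ≤ Real.exp S := by
        have := Real.add_one_le_exp S
        linarith
      calc 1 + ∑ j, ‖X0 k j‖ ≤ 2 * Real.exp ((K2 - 1) * S) := by linarith
        _ ≤ Real.exp S * Real.exp ((K2 - 1) * S) :=
            mul_le_mul_of_nonneg_right h18 (Real.exp_pos _).le
        _ = Real.exp (K2 * S) := by
            rw [← Real.exp_add]
            ring_nf
    have h19 : ∏ k : Fin d, (1 + ∑ j, ‖X0 k j‖) ≤ Real.exp (d * K2 * S) := by
      calc ∏ k : Fin d, (1 + ∑ j, ‖X0 k j‖) ≤ ∏ k : Fin d, Real.exp (K2 * S) := by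
            refine Finset.prod_le_prod (fun k _ => ?_) fun k _ => h8 k
            have := Finset.sum_nonneg fun j (_ : j ∈ Finset.univ) => norm_nonneg (X0 k j)
            linarith
        _ = Real.exp (d * K2 * S) := by
            rw [Finset.prod_const, Finset.card_univ, Fintype.card_fin, ← Real.exp_nat_mul]
            ring_nf
    refine h1.trans ?_
    calc (∑ j, ‖(X0.mulVec (fun j : Fin d => y0 i ^ (j : ℕ))) j‖) *
          ∏ k : Fin d, (1 + ∑ j, ‖X0 k j‖)
        ≤ (‖MvPolynomial.aeval y0 P‖ * Real.exp ((Real.log c2 + Real.log v) * S)) *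
            Real.exp (d * K2 * S) := by
          refine mul_le_mul h3 h19 (Finset.prod_nonneg fun k _ => ?_) (by positivity)
          have := Finset.sum_nonneg fun j (_ : j ∈ Finset.univ) => norm_nonneg (X0 k j)
          linarith
      _ = ‖MvPolynomial.aeval y0 P‖ *
            Real.exp ((Real.log c2 + Real.log v + d * K2) * S) := by
          rw [mul_assoc, ← Real.exp_add]
          ring_nf
      _ ≤ ‖MvPolynomial.aeval y0 P‖ * Real.exp (A * S) := by
          refine mul_le_mul_of_nonneg_left (Real.exp_le_exp.mpr ?_) (norm_nonneg _)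
          apply mul_le_mul_of_nonneg_right _ (by linarith)
          rw [hA]
          nlinarith [mul_nonneg (by linarith : (0 : ℝ) ≤ (d : ℝ)) hSe]
  · intro y hy
    rw [hev y] at hy
    obtain ⟨w, hw, hpw⟩ := Hm_root hd (a : ℂ) (by exact_mod_cast ha) _ D _ (hnd y) hy
    rw [U_eval] at hpw
    exact ⟨w, hw, hpw⟩
  · intro y y' h1 h2
    rw [hev y, hev y']
    have h3 : (U i P).map (evh y) = (U i P).map (evh y') := by
      apply Polynomial.funext
      intro w
      rw [U_eval, U_eval]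
      exact h2 w
    rw [h3]
    congr 2
    funext j
    exact h1 j

end step

/-! ## all variables -/

section all

variable {σ : Type} [Fintype σ]

theorem elim_all (ρ : σ → ℂ) (θ : Fin 2 → ℂ) (d : ℕ) (hd : 0 < d)
    (a : ℤ) (ha : a ≠ 0) (μ : σ → Fin d → MvPolynomial (Fin 2) ℤ)
    (hμ : ∀ i, (a : ℂ) * ρ i ^ d +
      ∑ j : Fin d, MvPolynomial.aeval θ (μ i j) * ρ i ^ (j : ℕ) = 0) (s : Finset σ) :
    ∃ A : ℝ, 1 ≤ A ∧ ∀ S : ℝ, 1 ≤ S → ∀ P : MvPolynomial σ ℤ, (P.totalDegree : ℝ) ≤ S →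
      len P ≤ Real.exp S →
        ∃ Q : MvPolynomial (Fin 2 ⊕ σ) ℤ, (Q.totalDegree : ℝ) ≤ A * S ∧
          len Q ≤ Real.exp (A * S) ∧
          ‖MvPolynomial.aeval (Sum.elim θ ρ) Q‖ ≤ ‖MvPolynomial.aeval ρ P‖ * Real.exp (A * S) ∧
          (∀ (x : Fin 2 → ℂ) (z : σ → ℂ), MvPolynomial.aeval (Sum.elim x z) Q = 0 →
            ∃ z' : σ → ℂ, (∀ i ∈ s, (a : ℂ) * z' i ^ d +
              ∑ j : Fin d, MvPolynomial.aeval x (μ i j) * z' i ^ (j : ℕ) = 0) ∧
                (∀ i, i ∉ s → z' i = z i) ∧ MvPolynomial.aeval z' P = 0) ∧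
          (∀ (x : Fin 2 → ℂ) (z z' : σ → ℂ), (∀ i, i ∉ s → z i = z' i) →
            MvPolynomial.aeval (Sum.elim x z) Q = MvPolynomial.aeval (Sum.elim x z') Q) := by
  classical
  induction s using Finset.induction_on with
  | empty =>
    refine ⟨1, le_rfl, fun S hS P hPd hPl => ?_⟩
    have hev : ∀ (x : Fin 2 → ℂ) (z : σ → ℂ), MvPolynomial.aeval (Sum.elim x z)
        (MvPolynomial.rename (Sum.inr : σ → Fin 2 ⊕ σ) P) = MvPolynomial.aeval z P := by
      intro x z
      rw [MvPolynomial.aeval_rename]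
      rfl
    refine ⟨MvPolynomial.rename Sum.inr P, ?_, ?_, ?_, ?_, ?_⟩
    · rw [one_mul]
      refine le_trans ?_ hPd
      exact_mod_cast MvPolynomial.totalDegree_rename_le _ _
    · rw [one_mul]
      refine le_trans ?_ hPl
      have h1 : MvPolynomial.rename (Sum.inr : σ → Fin 2 ⊕ σ) P =
          MvPolynomial.aeval (fun i => MvPolynomial.X (Sum.inr i)) P := by
        have h0 : MvPolynomial.rename (Sum.inr : σ → Fin 2 ⊕ σ) =
            (MvPolynomial.aeval (fun i => MvPolynomial.X (Sum.inr i)) :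
              MvPolynomial σ ℤ →ₐ[ℤ] MvPolynomial (Fin 2 ⊕ σ) ℤ) := by
          apply MvPolynomial.algHom_ext
          intro i
          rw [MvPolynomial.rename_X, MvPolynomial.aeval_X]
        rw [h0]
      rw [h1]
      have h2 := isNm_len.aeval_le P (fun i => (MvPolynomial.X (Sum.inr i) :
        MvPolynomial (Fin 2 ⊕ σ) ℤ)) 1 le_rfl (fun i => (len_X _).le) _ le_rfl
      rwa [one_pow, mul_one] at h2
    · rw [hev, one_mul]
      have h1 : (1 : ℝ) ≤ Real.exp S := by
        rw [← Real.exp_zero]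
        exact Real.exp_le_exp.mpr (by linarith)
      nlinarith [norm_nonneg (MvPolynomial.aeval ρ P : ℂ)]
    · intro x z h
      rw [hev] at h
      exact ⟨z, fun i hi => absurd hi (Finset.notMem_empty _), fun i _ => rfl, h⟩
    · intro x z z' h
      rw [hev, hev]
      have : z = z' := funext fun i => h i (Finset.notMem_empty _)
      rw [this]
  | insert i s hi ih =>
    obtain ⟨A, hA, ih⟩ := ih
    have hren : ∀ (y : Fin 2 ⊕ σ → ℂ) (j : Fin d),
        MvPolynomial.aeval y (MvPolynomial.rename (Sum.inl : Fin 2 → Fin 2 ⊕ σ) (μ i j)) =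
          MvPolynomial.aeval (fun k => y (Sum.inl k)) (μ i j) := by
      intro y j
      rw [MvPolynomial.aeval_rename]
      rfl
    have hupd : ∀ (x : Fin 2 → ℂ) (z : σ → ℂ) (w : ℂ),
        Function.update (Sum.elim x z) (Sum.inr i) w = Sum.elim x (Function.update z i w) := by
      intro x z w
      exact Sum.update_elim_inr
    obtain ⟨B, hB, hstep⟩ := step (τ := Fin 2 ⊕ σ) (Sum.inr i) hd a ha
      (fun j => MvPolynomial.rename (Sum.inl : Fin 2 → Fin 2 ⊕ σ) (μ i j)) (Sum.elim θ ρ)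
      (by
        simp only [hren, Sum.elim_inr, Sum.elim_inl]
        exact hμ i)
      (by
        intro y w j
        rw [hren, hren]
        rfl)
    refine ⟨B * A + A, by nlinarith, fun S hS P hPd hPl => ?_⟩
    obtain ⟨Q, hQ1, hQ2, hQ3, hQ4, hQ5⟩ := ih S hS P hPd hPl
    obtain ⟨R, hR1, hR2, hR3, hR4, hR5⟩ := hstep (A * S) (by nlinarith) Q hQ1 hQ2
    have hle : B * (A * S) ≤ (B * A + A) * S := by nlinarith
    refine ⟨R, hR1.trans hle, hR2.trans (Real.exp_le_exp.mpr hle), ?_, ?_, ?_⟩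
    · refine hR3.trans ?_
      calc ‖MvPolynomial.aeval (Sum.elim θ ρ) Q‖ * Real.exp (B * (A * S))
          ≤ (‖MvPolynomial.aeval ρ P‖ * Real.exp (A * S)) * Real.exp (B * (A * S)) :=
            mul_le_mul_of_nonneg_right hQ3 (Real.exp_pos _).le
        _ = ‖MvPolynomial.aeval ρ P‖ * Real.exp ((B * A + A) * S) := by
            rw [mul_assoc, ← Real.exp_add]
            ring_nf
    · intro x z h
      obtain ⟨w, hw, hpw⟩ := hR4 (Sum.elim x z) h
      rw [hupd] at hpw
      simp only [hren, Sum.elim_inl] at hw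
      obtain ⟨z', hz1, hz2, hz3⟩ := hQ4 x (Function.update z i w) hpw
      have hzi : z' i = w := by
        rw [hz2 i hi, Function.update_self]
      refine ⟨z', ?_, ?_, hz3⟩
      · intro k hk
        rcases Finset.mem_insert.mp hk with rfl | hk
        · rw [hzi]
          exact hw
        · exact hz1 k hk
      · intro k hk
        rw [Finset.mem_insert, not_or] at hk
        rw [hz2 k hk.2, Function.update_of_ne hk.1]
    · intro x z z' h
      apply hR5
      · intro j
        rw [hren, hren]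
        rfl
      · intro w
        rw [hupd, hupd]
        apply hQ5
        intro k hk
        by_cases hki : k = i
        · subst hki
          rw [Function.update_self, Function.update_self]
        · rw [Function.update_of_ne hki, Function.update_of_ne hki]
          apply h
          rw [Finset.mem_insert, not_or]
          exact ⟨hki, hk⟩

theorem norms_of (ρ : σ → ℂ) (θ : Fin 2 → ℂ) (d : ℕ) (hd : 0 < d)
    (a : ℤ) (ha : a ≠ 0) (μ : σ → Fin d → MvPolynomial (Fin 2) ℤ)
    (hμ0 : ∀ i (j : Fin d), (j : ℕ) = 0 → μ i j = MvPolynomial.C a)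
    (hμ : ∀ i, (a : ℂ) * ρ i ^ d +
      ∑ j : Fin d, MvPolynomial.aeval θ (μ i j) * ρ i ^ (j : ℕ) = 0) :
    ∃ (A : ℝ) (Z : (Fin 2 → ℂ) → Finset (σ → ℂ)), 1 ≤ A ∧
      (∀ x, ((Z x).card : ℝ) ≤ A) ∧ (∀ x, ∀ z ∈ Z x, ∀ i, z i ≠ 0) ∧
      ∀ S : ℝ, 1 ≤ S → ∀ P : MvPolynomial σ ℤ, (P.totalDegree : ℝ) ≤ S → len P ≤ Real.exp S →
        ∃ Q : MvPolynomial (Fin 2) ℤ, (Q.totalDegree : ℝ) ≤ A * S ∧ len Q ≤ Real.exp (A * S) ∧
          ‖MvPolynomial.aeval θ Q‖ ≤ ‖MvPolynomial.aeval ρ P‖ * Real.exp (A * S) ∧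
          ∀ x, MvPolynomial.aeval x Q = 0 → ∃ z ∈ Z x, MvPolynomial.aeval z P = 0 := by
  classical
  obtain ⟨A, hA, hall⟩ := elim_all ρ θ d hd a ha μ hμ Finset.univ
  set G : (Fin 2 → ℂ) → σ → ℂ[X] := fun x i => C (a : ℂ) * X ^ d +
    ∑ j : Fin d, C (MvPolynomial.aeval x (μ i j)) * X ^ (j : ℕ) with hG
  have hGdeg : ∀ x i, (G x i).natDegree ≤ d := by
    intro x i
    refine (natDegree_add_le _ _).trans (max_le ?_ ?_)
    · exact natDegree_C_mul_X_pow_le _ _
    · refine natDegree_sum_le_of_forall_le _ _ fun j _ => ?_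
      exact (natDegree_C_mul_X_pow_le _ _).trans j.2.le
  have hGne : ∀ x i, G x i ≠ 0 := by
    intro x i h0
    have h1 : (G x i).coeff d = (a : ℂ) := by
      rw [hG]
      simp only [coeff_add, coeff_C_mul, coeff_X_pow, if_true, mul_one, finsetSum_coeff]
      have h2 : ∀ j : Fin d, (MvPolynomial.aeval x (μ i j) : ℂ) * (if d = (j : ℕ) then 1 else 0) =
          0 := by
        intro j
        rw [if_neg (by have := j.2; omega), mul_zero]
      rw [Finset.sum_congr rfl fun j _ => h2 j, Finset.sum_const_zero, add_zero]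
    rw [h0, coeff_zero] at h1
    exact ha (by exact_mod_cast h1.symm)
  have hGev : ∀ x i w, (G x i).eval w = (a : ℂ) * w ^ d +
      ∑ j : Fin d, MvPolynomial.aeval x (μ i j) * w ^ (j : ℕ) := by
    intro x i w
    rw [hG]
    simp only [eval_add, eval_mul, eval_C, eval_pow, eval_X, eval_finsetSum]
  refine ⟨max A ((d : ℝ) ^ Fintype.card σ), fun x => Fintype.piFinset fun i => (G x i).roots.toFinset,
    hA.trans (le_max_left _ _), ?_, ?_, ?_⟩
  · intro x
    refine le_trans ?_ (le_max_right _ _)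
    rw [Fintype.card_piFinset]
    have h1 : ∏ i : σ, (G x i).roots.toFinset.card ≤ ∏ i : σ, d := by
      refine Finset.prod_le_prod (fun i _ => Nat.zero_le _) fun i _ => ?_
      exact (Multiset.toFinset_card_le _).trans ((card_roots' _).trans (hGdeg x i))
    rw [Finset.prod_const, Finset.card_univ] at h1
    exact_mod_cast h1
  · intro x z hz i h0
    rw [Fintype.mem_piFinset] at hz
    have h1 := hz i
    rw [Multiset.mem_toFinset, mem_roots (hGne x i), IsRoot.def, hGev, h0,
      zero_pow hd.ne', mul_zero, zero_add] at h1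
    have h2 : ∀ j : Fin d, (MvPolynomial.aeval x (μ i j) : ℂ) * (0 : ℂ) ^ (j : ℕ) =
        if j = ⟨0, hd⟩ then (a : ℂ) else 0 := by
      intro j
      by_cases hj : (j : ℕ) = 0
      · rw [if_pos (Fin.ext hj), hμ0 i j hj, hj, pow_zero, mul_one, MvPolynomial.aeval_C]
        simp
      · rw [if_neg (fun h => hj (by rw [h])), zero_pow hj, mul_zero]
    rw [Finset.sum_congr rfl fun j _ => h2 j, Finset.sum_ite_eq' Finset.univ,
      if_pos (Finset.mem_univ _)] at h1
    exact ha (by exact_mod_cast h1)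
  · intro S hS P hPd hPl
    obtain ⟨Q, hQ1, hQ2, hQ3, hQ4, hQ5⟩ := hall S hS P hPd hPl
    have hle : A * S ≤ max A ((d : ℝ) ^ Fintype.card σ) * S :=
      mul_le_mul_of_nonneg_right (le_max_left _ _) (by linarith)
    set f : Fin 2 ⊕ σ → MvPolynomial (Fin 2) ℤ := Sum.elim MvPolynomial.X (fun _ => 0) with hf
    have hev : ∀ x : Fin 2 → ℂ, MvPolynomial.aeval x (MvPolynomial.aeval f Q) =
        MvPolynomial.aeval (Sum.elim x (fun _ => 0)) Q := by
      intro x
      have h1 : (MvPolynomial.aeval x : MvPolynomial (Fin 2) ℤ →ₐ[ℤ] ℂ).comp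
          (MvPolynomial.aeval f) = MvPolynomial.aeval (Sum.elim x (fun _ => 0)) := by
        apply MvPolynomial.algHom_ext
        intro k
        rcases k with k | k <;> simp [f]
      exact AlgHom.congr_fun h1 Q
    refine ⟨MvPolynomial.aeval f Q, ?_, ?_, ?_, ?_⟩
    · refine le_trans ?_ (hQ1.trans hle)
      have h1 : (MvPolynomial.aeval f Q).totalDegree ≤ Q.totalDegree := by
        apply totalDegree_aeval_le
        intro k
        rcases k with k | k
        · simp [f]
        · simp [f]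
      exact_mod_cast h1
    · refine le_trans ?_ (hQ2.trans (Real.exp_le_exp.mpr hle))
      have h2 := isNm_len.aeval_le Q f 1 le_rfl (fun k => by
        rcases k with k | k
        · simp only [f, Sum.elim_inl]
          exact (len_X _).le
        · simp only [f, Sum.elim_inr]
          rw [isNm_len.zero]
          exact zero_le_one) _ le_rfl
      rwa [one_pow, mul_one] at h2
    · rw [hev, hQ5 θ _ ρ (fun i hi => absurd (Finset.mem_univ i) hi)]
      exact hQ3.trans (mul_le_mul_of_nonneg_left (Real.exp_le_exp.mpr hle) (norm_nonneg _))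
    · intro x hx
      rw [hev] at hx
      obtain ⟨z', hz1, _, hz3⟩ := hQ4 x _ hx
      refine ⟨z', ?_, hz3⟩
      rw [Fintype.mem_piFinset]
      intro i
      rw [Multiset.mem_toFinset, mem_roots (hGne x i), IsRoot.def, hGev]
      exact hz1 i (Finset.mem_univ i)

end all

end Pool.Agent.Helper94.LC
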