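import Pool.Agent.Helper14.LC.Nm

/-! # Block C of LT, LCB part 1: one variable at a time, degrees and matrices -/

set_option autoImplicit false
set_option linter.unusedSectionVars false
set_option linter.unusedVariables false

namespace Pool.Agent.Helper94.LC

open Polynomial Pool.Agent.Helper14.LC

/-! ## degrees -/

section deg

variable {τ : Type}

/-- total degree at most `n` -/
def W (n : ℕ) (p : (MvPolynomial τ ℤ)[X]) : Prop :=
  ∀ k, p.coeff k ≠ 0 → (p.coeff k).totalDegree + k ≤ n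

theorem W_mono {m n : ℕ} (h : m ≤ n) {p : (MvPolynomial τ ℤ)[X]} (hp : W m p) : W n p :=
  fun k hk => (hp k hk).trans h

theorem W_add {n : ℕ} {p q : (MvPolynomial τ ℤ)[X]} (hp : W n p) (hq : W n q) :
    W n (p + q) := by
  intro k hk
  rw [coeff_add] at hk ⊢
  by_cases h1 : p.coeff k = 0
  · rw [h1, zero_add] at hk ⊢
    exact hq k hk
  · by_cases h2 : q.coeff k = 0
    · rw [h2, add_zero]
      exact hp k h1
    · have h5 := MvPolynomial.totalDegree_add (p.coeff k) (q.coeff k)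
      have h3 := hp k h1
      have h4 := hq k h2
      have h6 : max (p.coeff k).totalDegree (q.coeff k).totalDegree ≤ n - k :=
        max_le (by omega) (by omega)
      omega

theorem W_zero (n : ℕ) : W n (0 : (MvPolynomial τ ℤ)[X]) := fun k h => absurd (coeff_zero k) h

theorem W_sum {ι : Type*} (s : Finset ι) (f : ι → (MvPolynomial τ ℤ)[X]) (n : ℕ)
    (h : ∀ i ∈ s, W n (f i)) : W n (∑ i ∈ s, f i) := by
  classical
  induction s using Finset.induction_on with
  | empty => exact W_zero n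
  | insert a s ha ih =>
    rw [Finset.sum_insert ha]
    exact W_add (h a (Finset.mem_insert_self _ _))
      (ih fun i hi => h i (Finset.mem_insert_of_mem hi))

theorem W_mul {m n : ℕ} {p q : (MvPolynomial τ ℤ)[X]} (hp : W m p) (hq : W n q) :
    W (m + n) (p * q) := by
  intro k hk
  rw [coeff_mul] at hk ⊢
  have h2 : k ≤ m + n := by
    obtain ⟨x, hx, hx0⟩ := Finset.exists_ne_zero_of_sum_ne_zero hk
    have h3 := hp x.1 (left_ne_zero_of_mul hx0)
    have h4 := hq x.2 (right_ne_zero_of_mul hx0)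
    have h5 := Finset.HasAntidiagonal.mem_antidiagonal.mp hx
    omega
  have h1 : (∑ x ∈ Finset.HasAntidiagonal.antidiagonal k, p.coeff x.1 * q.coeff x.2).totalDegree ≤
      m + n - k := by
    apply MvPolynomial.totalDegree_finsetSum_le
    intro x hx
    by_cases h3 : p.coeff x.1 = 0
    · rw [h3, zero_mul, MvPolynomial.totalDegree_zero]
      exact Nat.zero_le _
    · by_cases h4 : q.coeff x.2 = 0
      · rw [h4, mul_zero, MvPolynomial.totalDegree_zero]
        exact Nat.zero_le _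
      · refine (MvPolynomial.totalDegree_mul _ _).trans ?_
        have h5 := hp _ h3
        have h6 := hq _ h4
        have h7 := Finset.HasAntidiagonal.mem_antidiagonal.mp hx
        omega
  omega

theorem W_CC (c : ℤ) : W 0 (C (MvPolynomial.C c) : (MvPolynomial τ ℤ)[X]) := by
  intro k hk
  rw [coeff_C] at hk ⊢
  split_ifs at hk ⊢ with h
  · rw [MvPolynomial.totalDegree_C, h]
  · exact absurd rfl hk

theorem W_one : W 0 (1 : (MvPolynomial τ ℤ)[X]) := by
  have h := W_CC (τ := τ) 1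
  rwa [map_one, map_one] at h

theorem W_X : W 1 (X : (MvPolynomial τ ℤ)[X]) := by
  intro k hk
  rw [coeff_X] at hk ⊢
  split_ifs at hk ⊢ with h
  · rw [MvPolynomial.totalDegree_one, ← h]
  · exact absurd rfl hk

theorem W_CX (j : τ) : W 1 (C (MvPolynomial.X j) : (MvPolynomial τ ℤ)[X]) := by
  intro k hk
  rw [coeff_C] at hk ⊢
  split_ifs at hk ⊢ with h
  · rw [MvPolynomial.totalDegree_X, h]
  · exact absurd rfl hk

theorem W_pow {n : ℕ} {p : (MvPolynomial τ ℤ)[X]} (hp : W n p) (k : ℕ) : W (k * n) (p ^ k) := by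
  induction k with
  | zero =>
    rw [zero_mul, pow_zero]
    exact W_one
  | succ k ih =>
    rw [pow_succ, add_mul, one_mul]
    exact W_mul ih hp

theorem W_prod {ι : Type*} (s : Finset ι) (f : ι → (MvPolynomial τ ℤ)[X]) (n : ι → ℕ)
    (h : ∀ i ∈ s, W (n i) (f i)) : W (∑ i ∈ s, n i) (∏ i ∈ s, f i) := by
  classical
  induction s using Finset.induction_on with
  | empty => exact W_one
  | insert a s ha ih =>
    rw [Finset.prod_insert ha, Finset.sum_insert ha]
    exact W_mul (h a (Finset.mem_insert_self _ _))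
      (ih fun i hi => h i (Finset.mem_insert_of_mem hi))

theorem W_natDegree {n : ℕ} {p : (MvPolynomial τ ℤ)[X]} (hp : W n p) : p.natDegree ≤ n := by
  by_cases h : p = 0
  · rw [h, natDegree_zero]
    exact Nat.zero_le _
  · have h1 := hp p.natDegree (by rwa [coeff_natDegree, Ne, leadingCoeff_eq_zero])
    omega

theorem W_coeff {n : ℕ} {p : (MvPolynomial τ ℤ)[X]} (hp : W n p) (k : ℕ) :
    (p.coeff k).totalDegree ≤ n := by
  by_cases h : p.coeff k = 0
  · rw [h, MvPolynomial.totalDegree_zero]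
    exact Nat.zero_le _
  · have := hp k h
    omega

theorem totalDegree_aeval_le {υ : Type} (p : MvPolynomial τ ℤ) (x : τ → MvPolynomial υ ℤ)
    (hx : ∀ i, (x i).totalDegree ≤ 1) :
    (MvPolynomial.aeval x p).totalDegree ≤ p.totalDegree := by
  rw [MvPolynomial.aeval_eq_eval₂Hom, MvPolynomial.coe_eval₂Hom, MvPolynomial.eval₂_eq]
  apply MvPolynomial.totalDegree_finsetSum_le
  intro m hm
  refine (MvPolynomial.totalDegree_mul _ _).trans ?_
  have h1 : ((algebraMap ℤ (MvPolynomial υ ℤ)) (MvPolynomial.coeff m p)).totalDegree = 0 := by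
    rw [MvPolynomial.algebraMap_eq, MvPolynomial.totalDegree_C]
  rw [h1, zero_add]
  refine (MvPolynomial.totalDegree_finsetProd _ _).trans ?_
  refine le_trans (Finset.sum_le_sum fun i _ => ?_) (MvPolynomial.le_totalDegree hm)
  refine (MvPolynomial.totalDegree_pow _ _).trans ?_
  calc m i * (x i).totalDegree ≤ m i * 1 := Nat.mul_le_mul_left _ (hx i)
    _ = m i := mul_one _

end deg

/-! ## one variable -/

section one

variable {τ : Type} [DecidableEq τ]

/-- single out the variable `i` -/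
noncomputable def U (i : τ) : MvPolynomial τ ℤ →ₐ[ℤ] (MvPolynomial τ ℤ)[X] :=
  MvPolynomial.aeval fun j => if j = i then X else C (MvPolynomial.X j)

/-- evaluation as a ring homomorphism -/
noncomputable def evh (y : τ → ℂ) : MvPolynomial τ ℤ →+* ℂ :=
  (MvPolynomial.aeval y : MvPolynomial τ ℤ →ₐ[ℤ] ℂ).toRingHom

theorem evh_apply (y : τ → ℂ) (P : MvPolynomial τ ℤ) : evh y P = MvPolynomial.aeval y P := rfl

theorem U_eval (i : τ) (y : τ → ℂ) (w : ℂ) (P : MvPolynomial τ ℤ) :
    ((U i P).map (evh y)).eval w = MvPolynomial.aeval (Function.update y i w) P := by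
  have h : (Polynomial.evalRingHom w).comp ((mapRingHom (evh y)).comp (U i).toRingHom) =
      evh (Function.update y i w) := by
    apply MvPolynomial.ringHom_ext
    · intro r
      simp [evh, U]
    · intro j
      by_cases hj : j = i
      · subst hj
        simp [evh, U]
      · simp [evh, U, hj]
  exact RingHom.congr_fun h P

theorem U_W (i : τ) (P : MvPolynomial τ ℤ) : W P.totalDegree (U i P) := by
  rw [U, MvPolynomial.aeval_eq_eval₂Hom, MvPolynomial.coe_eval₂Hom, MvPolynomial.eval₂_eq]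
  apply W_sum
  intro m hm
  have h1 : W 0 ((algebraMap ℤ (MvPolynomial τ ℤ)[X]) (MvPolynomial.coeff m P)) := by
    exact W_CC _
  have h2 : W (∑ j ∈ m.support, m j * 1)
      (∏ j ∈ m.support, (if j = i then X else C (MvPolynomial.X j) : (MvPolynomial τ ℤ)[X]) ^
        m j) := by
    apply W_prod
    intro j _
    apply W_pow
    split_ifs
    · exact W_X
    · exact W_CX j
  have h3 := W_mul h1 h2
  rw [zero_add] at h3
  refine W_mono ?_ h3
  simp only [mul_one]
  exact MvPolynomial.le_totalDegree hm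

theorem U_len {N : MvPolynomial τ ℤ → ℝ} (hN : IsNm N) (t : ℝ) (ht : 1 ≤ t)
    (hX : ∀ j, N (MvPolynomial.X j) ≤ t) (i : τ) (P : MvPolynomial τ ℤ) (D : ℕ)
    (hD : P.totalDegree ≤ D) : pN N (U i P) ≤ len P * t ^ D := by
  rw [U]
  refine (isNm_pN hN).aeval_le P _ t ht ?_ D hD
  intro j
  by_cases h : j = i
  · rw [if_pos h]
    exact (pN_X hN).trans ht
  · rw [if_neg h, pN_C hN]
    exact hX j

end one

/-! ## matrices -/

section mat

/-- scaled companion matrix of `a T^d + ∑ ν_j T^j` -/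
def Mc {R : Type} [CommRing R] {d : ℕ} (a : R) (ν : Fin d → R) : Matrix (Fin d) (Fin d) R :=
  Matrix.of fun j j' => if (j : ℕ) + 1 < d then (if (j' : ℕ) = j + 1 then a else 0) else -ν j'

/-- `∑_k a^(D-k) p_k M^k` -/
noncomputable def Hm {R : Type} [CommRing R] {d : ℕ} (a : R) (ν : Fin d → R) (D : ℕ) (p : R[X]) :
    Matrix (Fin d) (Fin d) R :=
  ∑ k ∈ Finset.range (D + 1), (a ^ (D - k) * p.coeff k) • (Mc a ν) ^ k

variable {R S : Type} [CommRing R] [CommRing S] {d : ℕ}

theorem Mc_map (f : R →+* S) (a : R) (ν : Fin d → R) :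
    f.mapMatrix (Mc a ν) = Mc (f a) (fun j => f (ν j)) := by
  ext j j'
  simp only [Mc, RingHom.mapMatrix_apply, Matrix.map_apply, Matrix.of_apply]
  split_ifs <;> simp

theorem Hm_map (f : R →+* S) (a : R) (ν : Fin d → R) (D : ℕ) (p : R[X]) :
    f.mapMatrix (Hm a ν D p) = Hm (f a) (fun j => f (ν j)) D (p.map f) := by
  rw [Hm, map_sum, Hm]
  refine Finset.sum_congr rfl fun k _ => ?_
  have h1 : ∀ (c : R) (M : Matrix (Fin d) (Fin d) R),
      f.mapMatrix (c • M) = f c • f.mapMatrix M := by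
    intro c M
    ext i j
    exact map_mul f c (M i j)
  rw [h1, map_pow, Mc_map, map_mul, map_pow, coeff_map]

theorem det_Hm_map (f : R →+* S) (a : R) (ν : Fin d → R) (D : ℕ) (p : R[X]) :
    f (Hm a ν D p).det = (Hm (f a) (fun j => f (ν j)) D (p.map f)).det := by
  rw [← Hm_map, ← RingHom.map_det]

theorem Mc_mulVec (a : R) (ν : Fin d → R) (r : R)
    (h : a * r ^ d + ∑ j : Fin d, ν j * r ^ (j : ℕ) = 0) :
    (Mc a ν).mulVec (fun j => r ^ (j : ℕ)) = (a * r) • fun j : Fin d => r ^ (j : ℕ) := by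
  funext j
  rw [Matrix.mulVec, dotProduct, Pi.smul_apply, smul_eq_mul]
  by_cases hj : (j : ℕ) + 1 < d
  · have h1 : ∀ j' : Fin d, Mc a ν j j' * r ^ (j' : ℕ) =
        if j' = ⟨j + 1, hj⟩ then a * r ^ ((j : ℕ) + 1) else 0 := by
      intro j'
      rw [Mc, Matrix.of_apply, if_pos hj]
      by_cases h2 : (j' : ℕ) = j + 1
      · rw [if_pos h2, if_pos (Fin.ext h2), h2]
      · rw [if_neg h2, if_neg (fun h3 => h2 (by rw [h3])), zero_mul]
    rw [Finset.sum_congr rfl fun j' _ => h1 j', Finset.sum_ite_eq' Finset.univ,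
      if_pos (Finset.mem_univ _)]
    ring
  · have h1 : ∀ j' : Fin d, Mc a ν j j' * r ^ (j' : ℕ) = -(ν j' * r ^ (j' : ℕ)) := by
      intro j'
      rw [Mc, Matrix.of_apply, if_neg hj, neg_mul]
    rw [Finset.sum_congr rfl fun j' _ => h1 j', Finset.sum_neg_distrib]
    have h2 : (j : ℕ) + 1 = d := by
      have := j.2
      omega
    have h3 : a * r ^ d = a * r * r ^ (j : ℕ) := by
      have h4 : r ^ d = r * r ^ (j : ℕ) := by
        rw [← pow_succ']
        congr 1
        exact h2.symm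
      rw [h4, mul_assoc]
    rw [← h3]
    linear_combination -h

theorem Mc_pow_mulVec (a : R) (ν : Fin d → R) (r : R)
    (h : a * r ^ d + ∑ j : Fin d, ν j * r ^ (j : ℕ) = 0) (k : ℕ) :
    ((Mc a ν) ^ k).mulVec (fun j => r ^ (j : ℕ)) =
      ((a * r) ^ k) • fun j : Fin d => r ^ (j : ℕ) := by
  induction k with
  | zero => rw [pow_zero, pow_zero, Matrix.one_mulVec, one_smul]
  | succ k ih =>
    rw [pow_succ, ← Matrix.mulVec_mulVec, Mc_mulVec a ν r h, Matrix.mulVec_smul, ih, smul_smul]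
    congr 1
    ring

theorem Hm_mulVec (a : R) (ν : Fin d → R) (r : R)
    (h : a * r ^ d + ∑ j : Fin d, ν j * r ^ (j : ℕ) = 0) (D : ℕ) (p : R[X])
    (hp : p.natDegree ≤ D) :
    (Hm a ν D p).mulVec (fun j => r ^ (j : ℕ)) =
      (a ^ D * p.eval r) • fun j : Fin d => r ^ (j : ℕ) := by
  rw [Hm, Matrix.sum_mulVec, eval_eq_sum_range' (Nat.lt_succ_of_le hp), Finset.mul_sum,
    Finset.sum_smul]
  refine Finset.sum_congr rfl fun k hk => ?_
  rw [Matrix.smul_mulVec, Mc_pow_mulVec a ν r h, smul_smul]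
  congr 1
  have h1 : a ^ D = a ^ (D - k) * a ^ k := by
    rw [← pow_add, Nat.sub_add_cancel (Nat.lt_succ_iff.mp (Finset.mem_range.mp hk))]
  rw [h1]
  ring

/-- eigenvectors of the companion matrix -/
theorem Mc_eig (hd : 0 < d) (ν : Fin d → ℂ) (w : ℂ) (v : Fin d → ℂ) (hv : v ≠ 0)
    (h : (Mc 1 ν).mulVec v = w • v) : w ^ d + ∑ j : Fin d, ν j * w ^ (j : ℕ) = 0 := by
  have hrow : ∀ j : Fin d, (hj : (j : ℕ) + 1 < d) → v ⟨j + 1, hj⟩ = w * v j := by
    intro j hj
    have h1 := congrFun h j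
    rw [Matrix.mulVec, dotProduct, Pi.smul_apply, smul_eq_mul] at h1
    have h2 : ∀ j' : Fin d, Mc 1 ν j j' * v j' =
        if j' = ⟨j + 1, hj⟩ then v ⟨j + 1, hj⟩ else 0 := by
      intro j'
      rw [Mc, Matrix.of_apply, if_pos hj]
      by_cases h2 : (j' : ℕ) = j + 1
      · have h3 : j' = ⟨j + 1, hj⟩ := Fin.ext h2
        rw [if_pos h2, if_pos h3, one_mul, h3]
      · rw [if_neg h2, if_neg (fun h3 => h2 (by rw [h3])), zero_mul]
    rw [Finset.sum_congr rfl fun j' _ => h2 j', Finset.sum_ite_eq' Finset.univ,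
      if_pos (Finset.mem_univ _)] at h1
    exact h1
  have hpow : ∀ n : ℕ, (hn : n < d) → v ⟨n, hn⟩ = w ^ n * v ⟨0, hd⟩ := by
    intro n
    induction n with
    | zero =>
      intro hn
      rw [pow_zero, one_mul]
    | succ n ih =>
      intro hn
      have h1 := hrow ⟨n, by omega⟩ hn
      have h2 := ih (by omega)
      rw [h2] at h1
      rw [pow_succ]
      linear_combination h1
  have hv0 : v ⟨0, hd⟩ ≠ 0 := by
    intro h0
    apply hv
    funext j
    have := hpow j j.2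
    rw [h0, mul_zero] at this
    exact this
  have hlast := congrFun h ⟨d - 1, by omega⟩
  rw [Matrix.mulVec, dotProduct, Pi.smul_apply, smul_eq_mul] at hlast
  have h2 : ∀ j' : Fin d, Mc 1 ν ⟨d - 1, by omega⟩ j' * v j' =
      -(ν j' * w ^ (j' : ℕ)) * v ⟨0, hd⟩ := by
    intro j'
    rw [Mc, Matrix.of_apply, if_neg (by simp; omega)]
    have := hpow j' j'.2
    rw [show v j' = w ^ (j' : ℕ) * v ⟨0, hd⟩ from this]
    ring
  rw [Finset.sum_congr rfl fun j' _ => h2 j', ← Finset.sum_mul, Finset.sum_neg_distrib,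
    hpow (d - 1) (by omega)] at hlast
  have h3 : w * (w ^ (d - 1) * v ⟨0, hd⟩) = w ^ d * v ⟨0, hd⟩ := by
    rw [← mul_assoc, ← pow_succ', Nat.sub_add_cancel hd]
  rw [h3] at hlast
  have h4 : (w ^ d + ∑ j : Fin d, ν j * w ^ (j : ℕ)) * v ⟨0, hd⟩ = 0 := by
    linear_combination -hlast
  exact (mul_eq_zero.mp h4).resolve_right hv0

theorem Hm_root (hd : 0 < d) (a : ℂ) (ha : a ≠ 0) (ν : Fin d → ℂ) (D : ℕ) (p : ℂ[X])
    (hp : p.natDegree ≤ D) (h : (Hm a ν D p).det = 0) :
    ∃ w : ℂ, a * w ^ d + ∑ j : Fin d, ν j * w ^ (j : ℕ) = 0 ∧ p.eval w = 0 := by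
  set M : Matrix (Fin d) (Fin d) ℂ := Mc 1 (fun j => a⁻¹ * ν j) with hM
  have h1 : Mc a ν = a • M := by
    ext j j'
    simp only [Mc, Matrix.of_apply, Matrix.smul_apply, smul_eq_mul, hM]
    split_ifs
    · simp
    · simp
    · field_simp
  have h2 : Hm a ν D p = a ^ D • aeval M p := by
    rw [Hm, aeval_eq_sum_range' (Nat.lt_succ_of_le hp), Finset.smul_sum]
    refine Finset.sum_congr rfl fun k hk => ?_
    rw [h1, _root_.smul_pow, smul_smul, smul_smul]
    congr 1
    have h1 : a ^ D = a ^ (D - k) * a ^ k := by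
      rw [← pow_add, Nat.sub_add_cancel (Nat.lt_succ_iff.mp (Finset.mem_range.mp hk))]
    rw [h1]
    ring
  rw [h2, Matrix.det_smul] at h
  have h3 : (aeval M p).det = 0 :=
    (mul_eq_zero.mp h).resolve_left (pow_ne_zero _ (pow_ne_zero _ ha))
  have h4 : (0 : ℂ) ∈ spectrum ℂ (aeval M p) := by
    rw [spectrum.zero_mem_iff, Matrix.isUnit_iff_isUnit_det, h3]
    exact not_isUnit_zero
  have : Nonempty (Fin d) := ⟨⟨0, hd⟩⟩
  have h5 : (spectrum ℂ M).Nonempty := spectrum.nonempty_of_isAlgClosed_of_finiteDimensional ℂ M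
  rw [spectrum.map_polynomial_aeval_of_nonempty M p h5] at h4
  obtain ⟨w, hw, hpw⟩ := h4
  refine ⟨w, ?_, hpw⟩
  rw [spectrum.mem_iff, Matrix.isUnit_iff_isUnit_det, isUnit_iff_ne_zero, not_not,
    ← Matrix.exists_mulVec_eq_zero_iff] at hw
  obtain ⟨v, hv, hvw⟩ := hw
  have h6 : M.mulVec v = w • v := by
    rw [Matrix.sub_mulVec, Algebra.algebraMap_eq_smul_one, Matrix.smul_mulVec,
      Matrix.one_mulVec, sub_eq_zero] at hvw
    exact hvw.symm
  have h7 := Mc_eig hd _ w v hv h6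
  have h8 : a * (w ^ d + ∑ j : Fin d, a⁻¹ * ν j * w ^ (j : ℕ)) = 0 := by rw [h7, mul_zero]
  rw [mul_add, Finset.mul_sum] at h8
  rw [← h8]
  congr 1
  refine Finset.sum_congr rfl fun j _ => ?_
  field_simp

/-! ### row sums -/

variable {N : R → ℝ}

theorem rs_mul (h : IsNm N) (x y : ℝ) (hx : 0 ≤ x) (hy : 0 ≤ y) (A B : Matrix (Fin d) (Fin d) R)
    (hA : ∀ i, ∑ j, N (A i j) ≤ x) (hB : ∀ i, ∑ j, N (B i j) ≤ y) (i : Fin d) :
    ∑ j, N ((A * B) i j) ≤ x * y := by
  calc ∑ j, N ((A * B) i j) ≤ ∑ j, ∑ l, N (A i l) * N (B l j) := by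
        refine Finset.sum_le_sum fun j _ => ?_
        rw [Matrix.mul_apply]
        exact (h.sum_le _ _).trans (Finset.sum_le_sum fun l _ => h.mul _ _)
    _ = ∑ l, N (A i l) * ∑ j, N (B l j) := by
        rw [Finset.sum_comm]
        refine Finset.sum_congr rfl fun l _ => ?_
        rw [Finset.mul_sum]
    _ ≤ ∑ l, N (A i l) * y :=
        Finset.sum_le_sum fun l _ => mul_le_mul_of_nonneg_left (hB l) (h.nn _)
    _ = (∑ l, N (A i l)) * y := by rw [Finset.sum_mul]
    _ ≤ x * y := mul_le_mul_of_nonneg_right (hA i) hy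

theorem rs_pow (h : IsNm N) (x : ℝ) (hx : 0 ≤ x) (A : Matrix (Fin d) (Fin d) R)
    (hA : ∀ i, ∑ j, N (A i j) ≤ x) (k : ℕ) (i : Fin d) : ∑ j, N ((A ^ k) i j) ≤ x ^ k := by
  induction k generalizing i with
  | zero =>
    rw [pow_zero, pow_zero]
    have h1 : ∀ j, N ((1 : Matrix (Fin d) (Fin d) R) i j) = if j = i then N 1 else 0 := by
      intro j
      rw [Matrix.one_apply]
      by_cases hij : i = j
      · rw [if_pos hij, if_pos hij.symm]
      · rw [if_neg hij, if_neg (Ne.symm hij), h.zero]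
    rw [Finset.sum_congr rfl fun j _ => h1 j, Finset.sum_ite_eq' Finset.univ,
      if_pos (Finset.mem_univ _)]
    exact h.one
  | succ k ih =>
    rw [pow_succ, pow_succ]
    exact rs_mul h _ _ (pow_nonneg hx k) hx _ _ (fun i => ih i) hA i

theorem rs_Mc (h : IsNm N) (a : R) (ν : Fin d → R) (i : Fin d) :
    ∑ j, N (Mc a ν i j) ≤ N a + ∑ j, N (ν j) := by
  by_cases hi : (i : ℕ) + 1 < d
  · have h1 : ∀ j : Fin d, N (Mc a ν i j) = if j = ⟨i + 1, hi⟩ then N a else 0 := by
      intro j'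
      rw [Mc, Matrix.of_apply, if_pos hi]
      by_cases h2 : (j' : ℕ) = i + 1
      · rw [if_pos h2, if_pos (Fin.ext h2)]
      · rw [if_neg h2, if_neg (fun h3 => h2 (by rw [h3])), h.zero]
    rw [Finset.sum_congr rfl fun j _ => h1 j, Finset.sum_ite_eq' Finset.univ,
      if_pos (Finset.mem_univ _)]
    have := Finset.sum_nonneg fun j (_ : j ∈ Finset.univ) => h.nn (ν j)
    linarith
  · have h1 : ∀ j : Fin d, N (Mc a ν i j) = N (ν j) := by
      intro j'
      rw [Mc, Matrix.of_apply, if_neg hi, h.neg]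
    rw [Finset.sum_congr rfl fun j _ => h1 j]
    have := h.nn a
    linarith

theorem rs_Hm (h : IsNm N) (a : R) (ν : Fin d → R) (c : ℝ) (hc : 1 ≤ c)
    (hac : N a + ∑ j, N (ν j) ≤ c) (D : ℕ) (p : R[X]) (i : Fin d) :
    ∑ j, N (Hm a ν D p i j) ≤ c ^ D * pN N p := by
  have hna : N a ≤ c := by
    have := Finset.sum_nonneg fun j (_ : j ∈ Finset.univ) => h.nn (ν j)
    linarith
  have h0 : (0 : ℝ) ≤ c := by linarith
  calc ∑ j, N (Hm a ν D p i j)
      ≤ ∑ j, ∑ k ∈ Finset.range (D + 1), c ^ (D - k) * N (p.coeff k) * N ((Mc a ν ^ k) i j) := by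
        refine Finset.sum_le_sum fun j _ => ?_
        rw [Hm, Matrix.sum_apply]
        refine (h.sum_le _ _).trans (Finset.sum_le_sum fun k _ => ?_)
        rw [Matrix.smul_apply, smul_eq_mul]
        refine (h.mul _ _).trans (mul_le_mul_of_nonneg_right ?_ (h.nn _))
        refine (h.mul _ _).trans (mul_le_mul_of_nonneg_right ?_ (h.nn _))
        exact (h.pow_le _ _).trans (pow_le_pow_left₀ (h.nn _) hna _)
    _ = ∑ k ∈ Finset.range (D + 1), c ^ (D - k) * N (p.coeff k) *
          ∑ j, N ((Mc a ν ^ k) i j) := by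
        rw [Finset.sum_comm]
        refine Finset.sum_congr rfl fun k _ => ?_
        rw [Finset.mul_sum]
    _ ≤ ∑ k ∈ Finset.range (D + 1), c ^ D * N (p.coeff k) := by
        refine Finset.sum_le_sum fun k hk => ?_
        have h1 : ∑ j, N ((Mc a ν ^ k) i j) ≤ c ^ k :=
          rs_pow h c h0 _ (fun i => (rs_Mc h a ν i).trans hac) k i
        calc c ^ (D - k) * N (p.coeff k) * ∑ j, N ((Mc a ν ^ k) i j)
            ≤ c ^ (D - k) * N (p.coeff k) * c ^ k :=
              mul_le_mul_of_nonneg_left h1 (mul_nonneg (pow_nonneg h0 _) (h.nn _))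
          _ = c ^ (D - k) * c ^ k * N (p.coeff k) := by ring
          _ = c ^ D * N (p.coeff k) := by
              rw [← pow_add,
                Nat.sub_add_cancel (Nat.lt_succ_iff.mp (Finset.mem_range.mp hk))]
    _ = c ^ D * ∑ k ∈ Finset.range (D + 1), N (p.coeff k) := by rw [Finset.mul_sum]
    _ ≤ c ^ D * pN N p :=
        mul_le_mul_of_nonneg_left (sum_coeff_le_pN h p _) (pow_nonneg h0 _)

end mat

end Pool.Agent.Helper94.LC
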